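import Pool.Agent.Helper65.CS.Goals2

/-!
# Packet CS-PR2 (MP_34c247_lc): parameters, part 2
-/

namespace Pool.Agent.Helper79.CS

open Pool.Agent.Helper65.CS Pool.Agent.Helper78.DT
open Filter

theorem pow_le_two_pow (k : ℕ) : ∃ L1 : ℕ, ∀ L : ℕ, L1 ≤ L → 4 * (L : ℝ) ^ k ≤ 2 ^ L := by
  have h := (isLittleO_pow_const_const_pow_of_one_lt (R := ℝ) k (r := 2) (by norm_num)).bound
    (show (0 : ℝ) < 1 / 4 by norm_num)
  obtain ⟨L1, h1⟩ := eventually_atTop.mp h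
  refine ⟨L1, fun L hL => ?_⟩
  have h2 := h1 L hL
  rw [Real.norm_of_nonneg (by positivity), Real.norm_of_nonneg (by positivity)] at h2
  linarith

/-- the tail of a geometric series with ratio at most `1 / 2` -/
theorem geom_tail (y : ℝ) (h0 : 0 ≤ y) (h1 : y ≤ 1 / 2) (a u : ℕ) :
    ∑ i ∈ Finset.Ico a (a + u), y ^ i ≤ 2 * y ^ a := by
  have h2 : ∀ u : ℕ, ∑ i ∈ Finset.Ico a (a + u), y ^ i + 2 * y ^ (a + u) ≤ 2 * y ^ a := by
    intro u
    induction u with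
    | zero =>
      rw [add_zero, Finset.Ico_self, Finset.sum_empty, zero_add]
    | succ u ih =>
      rw [← add_assoc, Finset.sum_Ico_succ_top (by omega)]
      have h3 : y ^ (a + u + 1) ≤ y ^ (a + u) * (1 / 2) := by
        rw [pow_succ]
        exact mul_le_mul_of_nonneg_left h1 (pow_nonneg h0 _)
      linarith
  have h3 := h2 u
  have h4 := pow_nonneg h0 (a + u)
  linarith

/-- bounds for the numbers -/
theorem basic {N : ℕ} (h3 : 3 ≤ lg N) : N < 2 ^ lg N ∧ 2 ^ lg N ≤ 4 * N + 4 := by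
  unfold lg at h3 ⊢
  have hN : N ≠ 0 := by
    rintro rfl
    simp at h3
  have h1 : N < 2 ^ (Nat.log 2 N + 1) := Nat.lt_pow_succ_log_self (by norm_num) N
  have h2 : 2 ^ Nat.log 2 N ≤ N := Nat.pow_log_le_self 2 hN
  have e1 : 2 ^ (Nat.log 2 N + 1) = 2 * 2 ^ Nat.log 2 N := by ring
  have e2 : 2 ^ (Nat.log 2 N + 2) = 4 * 2 ^ Nat.log 2 N := by ring
  rw [e2]
  rw [e1] at h1
  omega

/-- `x = W (2 / 2^b) ≤ 2 (c + 3) / L` -/
theorem x_le (c : ℕ) {L : ℕ} (hL : 1 ≤ L) :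
    (Ww c L : ℝ) * (2 / 2 ^ bb L) ≤ 2 * ((c : ℝ) + 3) / L := by
  have hb : (L : ℝ) ^ 2 ≤ 2 ^ bb L := by
    unfold bb
    have h1 : L < 2 ^ (Nat.log 2 L + 1) := Nat.lt_pow_succ_log_self (by norm_num) L
    rw [mul_comm 2, pow_mul]
    have h2 : (L : ℝ) ≤ 2 ^ (Nat.log 2 L + 1) := by exact_mod_cast h1.le
    exact pow_le_pow_left₀ (Nat.cast_nonneg _) h2 2
  have hL0 : (0 : ℝ) < L := by exact_mod_cast hL
  unfold Ww
  push_cast
  have h2 : (2 : ℝ) / 2 ^ bb L ≤ 2 / (L : ℝ) ^ 2 :=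
    div_le_div_of_nonneg_left (by norm_num) (by positivity) hb
  calc ((c : ℝ) + 3) * L * (2 / 2 ^ bb L) ≤ ((c : ℝ) + 3) * L * (2 / (L : ℝ) ^ 2) :=
        mul_le_mul_of_nonneg_left h2 (by positivity)
    _ = 2 * ((c : ℝ) + 3) / L := by field_simp

theorem pr2 : Pr2Stmt := by
  intro c
  obtain ⟨L1, hL1⟩ := pow_le_two_pow (c + 4)
  refine ⟨L1 + 8 * (16 * (c + 3)) ^ (c + 5) + (2 * (c + 3)) ^ 2 + 32 * (c + 3), fun N hN => ?_⟩
  set L := lg N with hLdef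
  have hc1 : L1 ≤ L := by omega
  have hc2 : 8 * (16 * (c + 3)) ^ (c + 5) ≤ L := by omega
  have hc3 : (2 * (c + 3)) ^ 2 ≤ L := by omega
  have hc4 : 32 * (c + 3) ≤ L := by omega
  have hL3 : 3 ≤ L := by omega
  have hL0 : (0 : ℝ) < L := by
    have : 0 < L := by omega
    exact_mod_cast this
  obtain ⟨hN1, hN2⟩ := basic hL3
  rw [← hLdef] at hN1 hN2
  have hk := hL1 L hc1
  -- `2^(-L) ≤ 1 / (4 L^(c+4))`
  have hk' : (1 : ℝ) / 2 ^ L ≤ 1 / (4 * (L : ℝ) ^ (c + 4)) :=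
    one_div_le_one_div_of_le (by positivity) hk
  set x : ℝ := (Ww c L : ℝ) * (2 / 2 ^ bb L) with hx
  have hx0 : 0 ≤ x := by positivity
  have hx1 : x ≤ 2 * ((c : ℝ) + 3) / L := x_le c (by omega)
  have hN1R : (N : ℝ) ≤ 2 ^ L := by exact_mod_cast hN1.le
  -- first summand
  have hfirst : (N : ℝ) * x ^ uu L ≤ 1 / 2 ^ L := by
    set l := Nat.log 2 L with hl
    have hl1 : 0 < l := Nat.log_pos (by norm_num) (by omega)
    have h2l : 2 ^ l ≤ L := Nat.pow_log_le_self 2 (by omega)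
    have hu : 4 * L ≤ l * uu L := by
      unfold uu
      rw [← hl]
      have := Nat.lt_mul_div_succ (4 * L) hl1
      exact this.le
    have hx2 : x ^ 2 ≤ 1 / 2 ^ l := by
      have h1 : x ^ 2 ≤ (2 * ((c : ℝ) + 3) / L) ^ 2 := pow_le_pow_left₀ hx0 hx1 2
      have h2 : (2 * ((c : ℝ) + 3) / L) ^ 2 ≤ 1 / L := by
        rw [div_pow, div_le_div_iff₀ (by positivity) hL0]
        have h3 : ((2 * ((c : ℝ) + 3)) ^ 2) ≤ L := by exact_mod_cast hc3
        nlinarith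
      have h3 : (1 : ℝ) / L ≤ 1 / 2 ^ l :=
        one_div_le_one_div_of_le (by positivity) (by exact_mod_cast h2l)
      linarith
    have hx3 : (x ^ uu L) ^ 2 ≤ (1 / 2 ^ (2 * L)) ^ 2 := by
      have h1 : (x ^ uu L) ^ 2 = (x ^ 2) ^ uu L := by
        rw [← pow_mul, ← pow_mul, mul_comm]
      rw [h1]
      calc (x ^ 2) ^ uu L ≤ (1 / 2 ^ l) ^ uu L := pow_le_pow_left₀ (by positivity) hx2 _
        _ = 1 / 2 ^ (l * uu L) := by rw [one_div_pow, ← pow_mul]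
        _ ≤ 1 / 2 ^ (4 * L) :=
          one_div_le_one_div_of_le (by positivity) (pow_le_pow_right₀ (by norm_num) hu)
        _ = (1 / 2 ^ (2 * L)) ^ 2 := by
          rw [one_div_pow, ← pow_mul]
          congr 2
          ring
    have hx4 : x ^ uu L ≤ 1 / 2 ^ (2 * L) :=
      (pow_le_pow_iff_left₀ (by positivity) (by positivity) (by norm_num)).mp hx3
    calc (N : ℝ) * x ^ uu L ≤ 2 ^ L * (1 / 2 ^ (2 * L)) :=
          mul_le_mul hN1R hx4 (by positivity) (by positivity)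
      _ = 1 / 2 ^ L := by
        rw [two_mul, pow_add]
        field_simp
  -- second summand
  have hsecond : ∑ u ∈ Finset.Ico (c + 5) (c + 5 + uu L), (8 * (Ww c L : ℝ) * (2 / 2 ^ bb L)) ^ u ≤
      1 / (4 * (L : ℝ) ^ (c + 4)) := by
    have e : 8 * (Ww c L : ℝ) * (2 / 2 ^ bb L) = 8 * x := by rw [hx]; ring
    rw [e]
    have hy : 8 * x ≤ 16 * ((c : ℝ) + 3) / L := by
      have : 16 * ((c : ℝ) + 3) / L = 8 * (2 * ((c : ℝ) + 3) / L) := by ring
      rw [this]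
      linarith
    have hy2 : 16 * ((c : ℝ) + 3) / L ≤ 1 / 2 := by
      rw [div_le_div_iff₀ hL0 (by norm_num)]
      have h3 : 32 * ((c : ℝ) + 3) ≤ L := by exact_mod_cast hc4
      linarith
    have h1 := geom_tail (8 * x) (by positivity) (hy.trans hy2) (c + 5) (uu L)
    have h2 : (8 * x) ^ (c + 5) ≤ (16 * ((c : ℝ) + 3) / L) ^ (c + 5) :=
      pow_le_pow_left₀ (by positivity) hy _
    have h3 : 2 * (16 * ((c : ℝ) + 3) / L) ^ (c + 5) ≤ 1 / (4 * (L : ℝ) ^ (c + 4)) := by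
      rw [div_pow, ← mul_div_assoc, div_le_div_iff₀ (by positivity) (by positivity)]
      have h4 : 8 * (16 * ((c : ℝ) + 3)) ^ (c + 5) ≤ L := by exact_mod_cast hc2
      have h5 : (L : ℝ) ^ (c + 5) = L ^ (c + 4) * L := by ring
      rw [h5]
      have h6 : (0 : ℝ) ≤ (L : ℝ) ^ (c + 4) := by positivity
      nlinarith [mul_le_mul_of_nonneg_left h4 h6]
    linarith
  -- third summand
  have hthird : (2 : ℝ) ^ (c + 5) * ((N : ℝ) / MM N) ≤ 1 / 2 ^ L := by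
    have h1 : (2 : ℝ) ^ (19 * L) ≤ MM N := by
      unfold MM
      have : 2 ^ (19 * L) ≤ (4 * N + 4) ^ 19 := by
        rw [mul_comm, pow_mul]
        exact Nat.pow_le_pow_left hN2 19
      exact_mod_cast this
    have h2 : (N : ℝ) / MM N ≤ 2 ^ L / 2 ^ (19 * L) :=
      div_le_div₀ (by positivity) hN1R (by positivity) h1
    calc (2 : ℝ) ^ (c + 5) * ((N : ℝ) / MM N) ≤ 2 ^ (c + 5) * (2 ^ L / 2 ^ (19 * L)) :=
          mul_le_mul_of_nonneg_left h2 (by positivity)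
      _ ≤ 1 / 2 ^ L := by
        rw [← mul_div_assoc, div_le_div_iff₀ (by positivity) (by positivity), one_mul, ← pow_add,
          ← pow_add]
        exact pow_le_pow_right₀ (by norm_num) (by omega)
  unfold loss
  have hfinal : 1 / (4 * (L : ℝ) ^ (c + 4)) = 1 / 4 * (1 / (L : ℝ) ^ (c + 4)) := by
    field_simp
  have hpos : (0 : ℝ) ≤ 1 / (L : ℝ) ^ (c + 4) := by positivity
  have hf : (N : ℝ) * ((Ww c L : ℝ) * (2 / 2 ^ bb L)) ^ uu L ≤ 1 / 2 ^ L := hfirst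
  linarith

end Pool.Agent.Helper79.CS
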