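import Pool.Agent.Helper6.CS.Goals1

/-!
# Project CS, packet CS-SH0
-/

namespace Pool.Agent.Helper79.CS

open Pool.Agent.Helper6.CS

set_option synthInstance.maxSize 1000000000

theorem t_SH0 : G_SH0 := by
  intro M _ L b r e _
  obtain ⟨h, hh⟩ := ev_exists (fun _ : M => (Cod.cd (Wd.nil M) : M)) ((Cod.cd (Wd.nil M) : M) + 1)
  have h0 : apw h (Wd.nil M) = Wd.nil M := by
    unfold apw
    rw [hh _ ((World.lt_succ _ _).2 le_rfl), dec_cd]
  have hn : ∀ a : Wd M, a.len ≤ 0 → a = Wd.nil M := fun a ha =>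
    Wd.eq_nil_of_len (le_antisymm ha (World.zero_le' _))
  refine ⟨h, ⟨?_, ?_, ?_⟩, ?_⟩
  · intro a c _ _ _ ha
    rw [hn a ha, h0]
    exact ⟨Over.nil c, by rw [Wd.len_nil]⟩
  · intro a x c _ ha _ _ _
    rw [hn a ha, Wd.sub_nil, h0, Wd.sub_nil]
  · intro a x a' _ _ _ ha
    exfalso
    have h1 : (0 : M) < a'.len + 1 := (World.lt_succ _ _).2 (World.zero_le' _)
    have h2 : (0 : M) < a.len + (a'.len + 1) :=
      lt_of_lt_of_le h1 (le_add_of_nonneg_left (World.zero_le' _))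
    exact absurd ha (not_le.2 h2)
  · intro a _ ha
    rw [hn a ha, Wd.sub_nil]

end Pool.Agent.Helper79.CS
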